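import Pool.Agent.R217.CW.Main

set_option autoImplicit false

namespace Pool.Agent.Results.MP_593b7e_an.ThresholdGroundState

open Pool.Agent.R217.BN (cexp)
open Pool.Agent.R217.CW (Pr IsGS mu0)

/-- Full answer to Q1 (positive for all admissible `(N, p, μ, ν)`): the system has a ground state
solution at the threshold coupling `Λ = λ_{μ,ν}`, which is the infimum of the couplings with a ground
state; there is none below `Λ` and there is one for every coupling in `[Λ, √(μν))`. -/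
theorem result (N : ℕ) (hN : 3 ≤ N) (p μ ν : ℝ) (hp : 1 < p) (hp' : p < cexp N - 1)
    (hμ : mu0 N p < μ) (hν : 0 < ν) :
    ∃ Λ : ℝ, Λ = sInf {lam | 0 < lam ∧ lam < Real.sqrt (μ * ν) ∧ ∃ z : Pr N, IsGS p μ ν lam z} ∧
      Real.sqrt ((μ - mu0 N p) * ν) ≤ Λ ∧ Λ < Real.sqrt (μ * ν) ∧
      (∀ lam : ℝ, 0 < lam → lam < Λ → ¬ ∃ z : Pr N, IsGS p μ ν lam z) ∧
      (∀ lam : ℝ, Λ < lam → lam < Real.sqrt (μ * ν) → ∃ z : Pr N, IsGS p μ ν lam z) ∧
      ∃ z : Pr N, IsGS p μ ν Λ z :=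
  Pool.Agent.R217.CW.main1 hN hp hp' hμ hν

end Pool.Agent.Results.MP_593b7e_an.ThresholdGroundState
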